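import Pool.Agent.TW4.Inv

/-! Certificates for members of O_4 of order 10. -/

namespace Pool.Agent.TW4

def L10d : List Cert := [
  ⟨34131183028339,
    0x1f002ac03480294031202610186014900290016,
    0x976432105000097654238100000098541230600009865403127000009853207140000987541236000000986320714000098764321500000098763210500009876532410000009865421030000985324610700000987643201000098763241050000098654072100009875246130000009876451030000987635421000000987540312000098541237060000098752461000009865421703000009876532100000985320761400000986514730000098764530120000098765321000009872163054000009765248300000987643250100000987634521000098765432100000098763541000009876145203000009876345200000987625430100000976524831000098653472100000098651473200009876345210,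
    [5, 10, 12, 17, 34, 200, 296, 388, 448, 608, 656, 704, 832, 896, 212, 340, 596, 680, 788], 52690⟩,
  ⟨34139705854046,
    0x1f002cc032803140292026101830143002c001c,
    0x975432106000097654108320000098642310500009865423017000009875321040000987543210600000986320174000098764235100000098732106500009876532410000009865423100000986423501700000987543210000098753241060000098765421000009876245310000009876453100000987635421000000987642301000098642310750000098762450100009865423107000009876532100000987532106400000987635410000098754321060000098765321000009873261054000009875064320000987643250100000987416532000098765324100000098753462000009874265031000009875364210000986524713000000987426530000098753460210000098652473100009875364120,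
    [5, 6, 9, 10, 17, 34, 68, 268, 448, 560, 704, 832, 896, 184, 664, 680, 376, 436], 48188⟩,
  ⟨34687301593679,
    0x1f802c403220314028a02490231014300a5001e,
    0x9432105760000965403721800000943210685000096540382170000097521083400009875134206000009862107430000987624310500000975210863000098751362040000098621075400009876245103000009654038210000943210685700000987513402000097531240860000098751340600009765134082000009876243010000986421307500000987624305000098652430710000098751362000009752108634000009765134080000987513406200000987624510000098621075430000098652430700009876243051000009876245100000987620514300000987624513000098762351400000098762351400009876245130000009876254300000987605432100000987625431000098761543200000098761543200009876254310,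
    [3, 5, 6, 9, 17, 34, 68, 130, 260, 184, 344, 480, 568, 600, 664, 680, 688, 736, 792, 840, 848, 864, 928, 960], 57960⟩]

set_option maxRecDepth 100000 in
theorem L10d_ok : L10d.all (Cert.ok 10) = true := by
  decide +kernel

end Pool.Agent.TW4
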