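import Pool.Agent.TW4.Inv

/-! Certificates for members of O_4 of order 7. -/

namespace Pool.Agent.TW4

def L7a : List Cert := [
  ⟨2063199,
    0x3e005e006d00730073006d001e,
    0x643210000000064321500000000065321000000005432106000000006542100000000543210600000000654310000000054321060000000065432000000005432106000000006532100000000643210500000000654210000000064321050000000065431000000006432105000000006543200000000643210500000000654210000000065420130000000065431000000006543012000000006543120000000654321000000000654320000000065430210000000065432100000006543120000000006543200000000654302100000000654321000000065431200000000065431200000006543210,
    [2, 4, 32, 64, 9, 17, 24], 236562⟩]

set_option maxRecDepth 100000 in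
theorem L7a_ok : L7a.all (Cert.ok 7) = true := by
  decide +kernel

end Pool.Agent.TW4
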