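import Pool.Agent.TW4.Inv

/-! Certificates for members of O_4 of order 8. -/

namespace Pool.Agent.TW4

def L8a : List Cert := [
  ⟨248997651,
    0x7600ae00d900ac007200d100c90026,
    0x7543201000000754216300000000764321000000076421530000000076530210000007652130400000007654310000000765413200000000765432000000076542301000000076432100000007632154000000007654201000000765214030000000765431000000076541302000000076543200000007653241000000007653120000000765302140000000765421000000076540213000000076543210000007654321000000007654021000000765421030000000765413000000076543102000000076532400000007654320100000007653241000000765432100000000765413200000076543210,
    [32, 64, 128, 3, 5, 10, 20, 24], 95240⟩,
  ⟨261733203,
    0x7c00b300ce00cd00b200b100690056,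
    0x75431200000007543216000000007643102000000764321500000000765310200000076532140000000076540210000007654210300000007654130000000765431020000000764321000000075431260000000076532100000007543026100000007654320000000765403210000000765432100000076541320000000076542010000007652140300000007654310000000765413020000000765420300000076532401000000076542100000007654021300000007654310000000765304120000000765431200000076532410000000076532400000007654203100000007653241000000765431200000000765413200000076543210,
    [64, 3, 5, 10, 17, 20, 34, 40, 132, 136, 144, 160], 122000⟩,
  ⟨261969139,
    0x7c00ba00d500e300c600a900590036,
    0x75421030000007543216000000007643102000000764321500000000765312000000076532140000000076540210000006542107300000007654130000000654310720000000764321000000076431250000000076532010000007653124000000007654201000000754210630000000765423000000075432061000000076532100000007653024100000007654310000000764301520000000765432100000076432150000000076543200000007653024100000007654321000000765312400000000654310700000076541302000000075432060000007654230100000007643215000000765432100000000765312400000076543210,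
    [3, 5, 10, 12, 17, 18, 33, 36, 48, 66, 72, 80, 132, 136, 160, 192], 118276⟩]

set_option maxRecDepth 100000 in
theorem L8a_ok : L8a.all (Cert.ok 8) = true := by
  decide +kernel

end Pool.Agent.TW4
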