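import Pool.Agent.TW4.Inv

/-! Certificates for members of O_4 of order 9. -/

namespace Pool.Agent.TW4

def L9b : List Cert := [
  ⟨63541137587,
    0xec015a01b1015400e20186012900990046,
    0x8654210300000865321740000000875413200000087532164000000087631042000008763214050000008765140200000876524103000000876541300000087653124000000087542310000008743126500000008763205100000876312504000000876524010000087651420300000087654230000008764321500000008763214000000874302165000000876321500000087530216400000087653421000008765423100000008753021600000876321504000000876531400000087631045200000087643250000008763205410000008765341000000876514302000000876534200000087652430100000087432165000008765342100000008753126400000876534210,
    [3, 5, 10, 12, 18, 48, 130, 136, 264, 81, 97, 100, 208, 292, 324, 352, 400, 416, 449], 72426⟩,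
  ⟨63545354635,
    0xec015c01b2014a00c601a101910071000e,
    0x8654103200000865321740000000875403120000076541238000000087641203000007643218050000008764215000000876521430000000876514300000087653140200000087540213000008654132700000008765130200000865321704000000876514200000087642150300000087653140000008764315200000008764023100000876412305000000876503210000087651320400000087653204000008765403210000007654218000000876514203000000876542300000087640235100000086543170000008765143020000008765432000000876503241000000865431720000087641253000000076542183000008765134200000008765143200000876543210,
    [3, 5, 9, 18, 20, 34, 66, 144, 288, 104, 112, 140, 224, 268, 336, 388, 392, 448], 76916⟩,
  ⟨65596590867,
    0xf4012e013901c2014c00d2019100a90046,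
    0x8654130200000865321740000000875413200000087542036100000087321640000008764231050000008765130200000876521304000000876513400000087654132000000087642301000008732164050000008765240100000876512403000000876543100000087651430200000087654320000008753261400000008764231000000873216405000000876521300000087530612400000087652410000008754061230000008765431200000865432710000000875326400000087642305100000087540612000008765241030000008765413000000876513042000000876532400000087652403100000087532614000008765431200000008765143200000876543210,
    [3, 5, 10, 24, 34, 130, 160, 288, 81, 84, 104, 276, 324, 336, 392, 400, 201, 204, 329, 449], 73558⟩,
  ⟨59178929427,
    0xdc013a012d00d301a401c2015100a90066,
    0x86542103000008643205710000008754130200000875423160000000876513020000087632150400000087542160000008765241030000008765130400000876431502000000876423010000087641325000000087632150000008765132040000008765240100000875421603000000876524030000087543260100000087642310000008643027510000008765241000000875421603000000876543100000087530641200000087654312000008753264100000008765132000000876321504000000876543200000087640532100000087654321000008764153200000008764315000000876513042000000875432600000087652403100000087532641000008765431200000008764153200000876543210,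
    [3, 5, 10, 33, 34, 65, 130, 52, 84, 152, 168, 268, 276, 280, 324, 336, 392, 400, 108, 120, 204, 228, 240, 360, 420, 480], 95146⟩,
  ⟨59179191347,
    0xdc013a013500d301e00186014900a90066,
    0x86521043000008643205710000008753104200000874321560000000875312600000087632150400000087654102000008765421030000008765410300000876543102000000876320410000087431265000000087632150000008753126040000008765420100000876541203000000876542030000087654320100000087632140000008643027510000008763215000000875312604000000876543100000087654031200000087654312000008765423100000008753126000000876321504000000876543200000087654032100000087654321000008765413200000008765431000000876541032000000876543200000087654203100000087654231000008765431200000008765413200000876543210,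
    [3, 5, 10, 12, 33, 34, 65, 130, 84, 112, 152, 176, 276, 280, 324, 336, 392, 400, 228, 232, 360, 420, 480], 91072⟩]

set_option maxRecDepth 100000 in
theorem L9b_ok : L9b.all (Cert.ok 9) = true := by
  decide +kernel

end Pool.Agent.TW4
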