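import Pool.Agent.TW4.Inv

/-! Certificates for members of O_4 of order 6. -/

namespace Pool.Agent.TW4

def L6a : List Cert := [
  ⟨32767,
    0x1f002f0037003b003d003e,
    0x532100000000053210400000000054210000000005421030000000005431000000000543102000000000543200000000054320100000000054321000000005432100000000005421000000000542103000000000543100000000054310200000000054320000000005432010000000005432100000000543210000000000543100000000054310200000000054320000000005432010000000005432100000000543210000000000543200000000054320100000000054321000000005432100000000005432100000000543210,
    [1, 2, 4, 8, 16, 32], 325830⟩]

set_option maxRecDepth 100000 in
theorem L6a_ok : L6a.all (Cert.ok 6) = true := by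
  decide +kernel

end Pool.Agent.TW4
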